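import Pool.Agent.V5helper77.GW.Wt
import Pool.Agent.V5helper52.SF.Blocks

/-!
# Weight-graded pieces of the cohomology with compact support: products and finite coverings
-/

set_option autoImplicit false

open CategoryTheory CategoryTheory.Limits AlgebraicGeometry Pool.Agent.Y116.UV Pool.Agent.Z125.UN
  Pool.Agent.Q193.LT Pool.Agent.V5helper77.GW Pool.Agent.V5helper52.SF TensorProduct

universe v u

namespace Pool.Agent.V5helper94.SV

section sums

variable {C : Type u} [Category.{v} C] [Abelian C]

open scoped ZeroObject

/-- The direct sum of a list of objects. -/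
noncomputable def sumObj : List C → C
  | [] => 0
  | M :: L => M ⊞ sumObj L

end sums

variable {k : Type} [Field k] {C : Type u} [Category.{v} C] [Abelian C]

/-- The motives `V w n X = Gr^W_w H^n_c(X)` as in `IsWeightTheory`, with the tensor product `ten` of
motives:

* `kunneth`: the Künneth formula for affine `X = Spec A` and `Y = Spec B`: the motive `V w n (X × Y)` is
  a direct sum of finitely many motives of the form `V w' n' X ⊗ V (w - w') (n - n') Y`;
* `cover`: for a finite covering `Y → X` of affine schemes such that the algebra of `Y` is free of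
  rank `N > 0` over the algebra of `X` the motive `V w n X` is a direct summand of `V w n Y` (the
  composition of the pull-back and of the trace is the multiplication by `N`). -/
structure IsTensorTheory (V : ℤ → ℤ → Sch k → C) (tw : ℤ → C → C) (ten : C → C → C) : Prop
    extends IsWeightTheory V tw where
  kunneth : ∀ (A B : Type) [CommRing A] [Algebra k A] [Algebra.FiniteType k A] [CommRing B]
    [Algebra k B] [Algebra.FiniteType k B] (w n : ℤ), ∃ L : List (ℤ × ℤ),
    Nonempty (V w n (aff k (A ⊗[k] B)) ≅
      sumObj (L.map fun q => ten (V q.1 q.2 (aff k A)) (V (w - q.1) (n - q.2) (aff k B))))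
  cover : ∀ (A B : Type) [CommRing A] [Algebra k A] [Algebra.FiniteType k A] [CommRing B]
    [Algebra k B] [Algebra A B] [IsScalarTower k A B] (N : ℕ), 0 < N →
    Nonempty (B ≃ₗ[A] (Fin N → A)) → ∀ w n : ℤ,
    ∃ (s : V w n (aff k A) ⟶ V w n (aff k B)) (r : V w n (aff k B) ⟶ V w n (aff k A)), s ≫ r = 𝟙 _

variable {V : ℤ → ℤ → Sch k → C} {tw : ℤ → C → C} {ten : C → C → C}

/-- A class `S` of motives which is closed under direct summands, direct sums and tensor products and
invariant under Tate twists. -/
structure IsTensorClass (S : C → Prop) (tw : ℤ → C → C) (ten : C → C → C) : Prop where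
  zero : ∀ M, IsZero M → S M
  retract : ∀ {M N : C} (i : M ⟶ N) (r : N ⟶ M), i ≫ r = 𝟙 M → S N → S M
  sum : ∀ {M N : C}, S M → S N → S (M ⊞ N)
  twist : ∀ (r : ℤ) (M : C), S (tw r M) ↔ S M
  tensor : ∀ {M N : C}, S M → S N → S (ten M N)

variable {S : C → Prop}

lemma IsTensorClass.toTwist (hS : IsTensorClass S tw ten) : IsTwistClass (fun _ M => S M) tw where
  zero _ M h := hS.zero M h
  retract _ _ _ i r h hN := hS.retract i r h hN
  sum _ _ _ h h' := hS.sum h h'
  twist _ r M := hS.twist r M

open scoped ZeroObject in
lemma IsTensorClass.sumObj (hS : IsTensorClass S tw ten) (L : List C) (h : ∀ M ∈ L, S M) :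
    S (sumObj L) := by
  induction L with
  | nil => exact hS.zero _ (isZero_zero C)
  | cons M L ih =>
    exact hS.sum (h M List.mem_cons_self) (ih fun N hN => h N (List.mem_cons_of_mem _ hN))

/-- The closure properties `Cls` of the schemes all of whose graded pieces are in the class. -/
theorem cls_pieces [PerfectField k] (hV : IsTensorTheory V tw ten) (hS : IsTensorClass S tw ten)
    (h1 : AllPieces V (fun _ M => S M) (aff k k)) (hH : Hironaka k)
    (hc : ∀ X : Sch k, IsSmProj X → topologicalKrullDim X.left ≤ 1 → ∀ i : ℤ, S (V i i X)) :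
    Cls True (AllPieces V fun _ M => S M) where
  toBnd := bnd_pieces hV.toIsWeightTheory hS.toTwist h1
  prod A B _ _ _ _ _ _ hA hB w n := by
    obtain ⟨L, ⟨e⟩⟩ := hV.kunneth A B w n
    refine hS.retract e.hom e.inv e.hom_inv_id (hS.sumObj _ ?_)
    intro M hM
    obtain ⟨q, _, rfl⟩ := List.mem_map.mp hM
    exact hS.tensor (hA _ _) (hB _ _)
  free A B _ _ _ _ _ _ _ N hN hb h w n := by
    obtain ⟨s, r, hs⟩ := hV.cover A B N hN hb w n
    exact hS.retract s r hs (h w n)
  curve A _ _ _ hA := by
    refine (graded_iff hV.toIsWeightTheory hS.toTwist h1 hH 1).1.mp ?_ (aff k A) (ft_aff True) ?_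
    · intro X hX hd i
      exact hc X hX (by exact_mod_cast hd) i
    · rw [topDim_aff]
      exact_mod_cast hA

/-- The motives which come from dimension at most `d`: the smallest class of motives which contains the
unit motive and the motives `H^i(X)` of the smooth projective varieties `X` over `k` of dimension at
most `d`, and which is closed under direct summands, direct sums, tensor products, and Tate twists.
For `d = 1` these are the motives of abelian type. -/
inductive LowType (V : ℤ → ℤ → Sch k → C) (tw : ℤ → C → C) (ten : C → C → C) (d : ℕ) : C → Prop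
  | point : LowType V tw ten d (V 0 0 (aff k k))
  | variety {X : Sch k} (hX : IsSmProj X) (hd : topologicalKrullDim X.left ≤ d) (i : ℤ) :
      LowType V tw ten d (V i i X)
  | zero {M : C} (h : IsZero M) : LowType V tw ten d M
  | retract {M N : C} (i : M ⟶ N) (r : N ⟶ M) (h : i ≫ r = 𝟙 M) (hN : LowType V tw ten d N) :
      LowType V tw ten d M
  | sum {M N : C} (hM : LowType V tw ten d M) (hN : LowType V tw ten d N) :
      LowType V tw ten d (M ⊞ N)
  | twist {M : C} (r : ℤ) (hM : LowType V tw ten d M) : LowType V tw ten d (tw r M)
  | untwist {M : C} (r : ℤ) (hM : LowType V tw ten d (tw r M)) : LowType V tw ten d M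
  | tensor {M N : C} (hM : LowType V tw ten d M) (hN : LowType V tw ten d N) :
      LowType V tw ten d (ten M N)

variable {d : ℕ}

lemma lowType_class : IsTensorClass (LowType V tw ten d) tw ten where
  zero _ h := .zero h
  retract i r h hN := .retract i r h hN
  sum hM hN := .sum hM hN
  twist r _ := ⟨.untwist r, .twist r⟩
  tensor hM hN := .tensor hM hN

/-- Induction over the motives which come from dimension at most `d`. -/
lemma lowType_le (hS : IsTensorClass S tw ten) (h1 : S (V 0 0 (aff k k)))
    (hc : ∀ X : Sch k, IsSmProj X → topologicalKrullDim X.left ≤ d → ∀ i : ℤ, S (V i i X))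
    {M : C} (hM : LowType V tw ten d M) : S M := by
  induction hM with
  | point => exact h1
  | variety hX hd i => exact hc _ hX hd i
  | zero h => exact hS.zero _ h
  | retract i r h _ ih => exact hS.retract i r h ih
  | sum _ _ ih ih' => exact hS.sum ih ih'
  | twist r _ ih => exact (hS.twist r _).mpr ih
  | untwist r _ ih => exact (hS.twist r _).mp ih
  | tensor _ _ ih ih' => exact hS.tensor ih ih'

end Pool.Agent.V5helper94.SV
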