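import Pool.Agent.V5helper94.SV.Wt
import Pool.Agent.V5helper52.SF.Compl
import Pool.Agent.V5helper52.SF.QJou

/-!
# Schemes which are built from curves
-/

set_option autoImplicit false

open CategoryTheory AlgebraicGeometry MvPolynomial Pool.Agent.Y116.UV Pool.Agent.Z125.UN
  Pool.Agent.V5helper77.GW Pool.Agent.V5helper52.SF TensorProduct

namespace Pool.Agent.V5helper94.SV

/-- The affine scheme `Spec A[w] / (∑ f_l w_l - 1)`: an affine bundle over the open subscheme `{f ≠ 0}` of
`Spec A` (Jouanolou's device). -/
noncomputable def jouScheme (k : Type) [Field k] {A : Type} [CommRing A] [Algebra k A] {m : ℕ}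
    (f : Fin m → A) : Sch k := aff k (Jou f)

/-- The scheme `U` is the open subscheme `{f ≠ 0}` of `Spec A`: the set of the points where not all
functions `f_l` vanish. -/
def IsLocus {k : Type} [Field k] {A : Type} [CommRing A] [Algebra k A] {m : ℕ} (f : Fin m → A)
    (U : Sch k) : Prop :=
  ∃ j : U ⟶ aff k A, IsOpenImmersion j.left ∧
    Set.range j.left = {x : PrimeSpectrum A | ∃ l, f l ∉ x.asIdeal}

/-- The schemes over `k` which are built from schemes of dimension at most `d`: the smallest class of
schemes over `k` with the following properties.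

* `dim`: the class contains the separated schemes of finite type of dimension at most `d`;
* `iso`: it is stable under isomorphisms;
* `total`, `opened`, `closed`: if two of the three schemes `X` (separated, of finite type), a closed
  subscheme of `X`, and its open complement are in the class, then so is the third;
* `bundle`, `jouanolou`: an open subscheme `U = {f ≠ 0}` of `Spec A` is in the class if and only if the
  affine bundle `Spec A[w] / (∑ f_l w_l - 1)` over `U` is;
* `torus`: if `X × 𝔾_m` is in the class, `X` affine, then `X` is in the class;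
* `prod`: products of affine schemes of the class are in the class;
* `free`: if `Y → X` is a finite covering of affine schemes such that the algebra of `Y` is free of
  rank `n > 0` over the algebra of `X`, and if `Y` is in the class, then so is `X`. -/
inductive Built (k : Type) [Field k] (d : ℕ) : Sch k → Prop
  | dim {X : Sch k} (hX : FT True X) (hd : topologicalKrullDim X.left ≤ d) : Built k d X
  | iso {X Y : Sch k} (hX : FT True X) (e : Nonempty (X ≅ Y)) (h : Built k d X) : Built k d Y
  | total {Z X U : Sch k} (i : Z ⟶ X) (j : U ⟶ X) (hX : FT True X) (ht : IsTriple i j)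
      (hZ : Built k d Z) (hU : Built k d U) : Built k d X
  | opened {Z X U : Sch k} (i : Z ⟶ X) (j : U ⟶ X) (hX : FT True X) (ht : IsTriple i j)
      (hZ : Built k d Z) (h : Built k d X) : Built k d U
  | closed {Z X U : Sch k} (i : Z ⟶ X) (j : U ⟶ X) (hX : FT True X) (ht : IsTriple i j)
      (h : Built k d X) (hU : Built k d U) : Built k d Z
  | bundle (A : Type) [CommRing A] [Algebra k A] [Algebra.FiniteType k A] (m : ℕ)
      (f : Fin m → A) (U : Sch k) (hU : IsLocus f U) (h : Built k d U) : Built k d (jouScheme k f)
  | jouanolou (A : Type) [CommRing A] [Algebra k A] [Algebra.FiniteType k A] (m : ℕ)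
      (f : Fin m → A) (U : Sch k) (hU : IsLocus f U) (h : Built k d (jouScheme k f)) : Built k d U
  | torus (A : Type) [CommRing A] [Algebra k A] [Algebra.FiniteType k A]
      (h : Built k d (aff k (LaurentPolynomial A))) : Built k d (aff k A)
  | prod (A B : Type) [CommRing A] [Algebra k A] [Algebra.FiniteType k A] [CommRing B]
      [Algebra k B] [Algebra.FiniteType k B] (hA : Built k d (aff k A))
      (hB : Built k d (aff k B)) : Built k d (aff k (A ⊗[k] B))
  | free (A B : Type) [CommRing A] [Algebra k A] [Algebra.FiniteType k A] [CommRing B]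
      [Algebra k B] [Algebra A B] [IsScalarTower k A B] (n : ℕ) (hn : 0 < n)
      (hb : Nonempty (B ≃ₗ[A] (Fin n → A))) (h : Built k d (aff k B)) : Built k d (aff k A)

section

variable {k : Type} [Field k] {d : ℕ}

lemma built_dim {A : Type} [CommRing A] [Algebra k A] [Algebra.FiniteType k A]
    (hA : ringKrullDim A ≤ d) : Built k d (aff k A) := by
  refine .dim (ft_aff True) ?_
  rw [topDim_aff]
  exact hA

lemma built_space (n : ℕ) : Built k d (aff k (MvPolynomial (Fin n) k)) := by
  have h1 : Built k d (aff k k) := built_dim (by
    rw [ringKrullDim_eq_zero_of_field]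
    exact_mod_cast Nat.zero_le d)
  have h2 := Built.bundle k (n + 1) (f1 k n) (aff k k) ⟨𝟙 _, inferInstance, range_id n⟩ h1
  exact .iso (ft_aff True) ⟨(affIso (jouOne k n)).symm⟩ h2

/-- The closure properties `Cls` of the schemes which are built from curves. -/
theorem cls_built (hd : 1 ≤ d) : Cls True (Built k d) where
  iso hX e h := .iso hX e h
  total i j hX ht hZ hU := .total i j hX ht hZ hU
  opened i j hX ht hZ h := .opened i j hX ht hZ h
  closed i j hX ht h hU := .closed i j hX ht h hU
  space n := built_space n
  jouanolou A _ _ _ m f U j hj hr h := .jouanolou A m f U ⟨j, hj, hr⟩ h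
  torus A _ _ _ h := .torus A h
  bundle A _ _ _ m f U j hj hr h := .bundle A m f U ⟨j, hj, hr⟩ h
  prod A B _ _ _ _ _ _ hA hB := .prod A B hA hB
  free A B _ _ _ _ _ _ _ n hn hb h := .free A B n hn hb h
  curve A _ _ _ hA := built_dim (hA.trans (by exact_mod_cast hd))

/-- Induction over the schemes which are built from schemes of dimension at most `d`. -/
theorem built_le {P : Sch k → Prop} (hP : Cls True P)
    (h : ∀ X : Sch k, FT True X → topologicalKrullDim X.left ≤ d → P X) {X : Sch k}
    (hX : Built k d X) : P X := by
  induction hX with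
  | dim hX hd => exact h _ hX hd
  | iso hX e _ ih => exact hP.iso hX e ih
  | total i j hX ht _ _ h1 h2 => exact hP.total i j hX ht h1 h2
  | opened i j hX ht _ _ h1 h2 => exact hP.opened i j hX ht h1 h2
  | closed i j hX ht _ _ h1 h2 => exact hP.closed i j hX ht h1 h2
  | bundle A m f U hU _ ih =>
    obtain ⟨j, hj, hr⟩ := hU
    exact hP.bundle A m f U j hj hr ih
  | jouanolou A m f U hU _ ih =>
    obtain ⟨j, hj, hr⟩ := hU
    exact hP.jouanolou A m f U j hj hr ih
  | torus A _ ih => exact hP.torus A ih
  | prod A B _ _ h1 h2 => exact hP.prod A B h1 h2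
  | free A B n hn hb _ ih => exact hP.free A B n hn hb ih

end

end Pool.Agent.V5helper94.SV
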