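import Pool.Agent.V5helper94.SV.Lin

/-!
# Polynomials with separated variables
-/

set_option autoImplicit false

open CategoryTheory AlgebraicGeometry MvPolynomial Pool.Agent.Y116.UV Pool.Agent.Z125.UN
  Pool.Agent.V5helper52.SF TensorProduct

namespace Pool.Agent.V5helper94.SV

/-- The smallest class of polynomials over the field `k` with the following properties.

* `good`: a polynomial `f`, homogeneous of degree `e ≠ 0` for some integer weights of the variables, is in
  the class if the hypersurface `f = 1` is built from schemes of dimension at most `d` (see `Built`);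
* `lin`: the polynomial `∑ x_j g_j(y)` is in the class if the scheme `g_1(y) = ⋯ = g_N(y) = 0` is built
  from schemes of dimension at most `d`;
* `tri`: the trilinear forms `∑ T_ijl x_i y_j z_l` with a block of at most `d + 2` variables are in the
  class;
* `iso`: the class is stable under isomorphisms of polynomial rings over `k` (for example under
  linear changes of the variables);
* `comp`: if `f_1, …, f_m`, `m ≤ d + 1`, are in the class and involve disjoint sets of variables, and
  `Q` is a polynomial in `m` variables which is homogeneous of degree `e ≠ 0` for some integer weights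
  of the variables, then `Q(f_1, …, f_m)` is in the class;
* `quad`: if `f_1, …, f_m`, `m ≤ d`, are in the class and involve disjoint sets of variables, and
  `Q(x_1, …, x_N, u_1, …, u_m)` is a polynomial which is of degree at most two in the variables
  `x_1, …, x_N` and homogeneous of degree `e ≠ 0` for some integer weights of the variables, then
  `Q(x_1, …, x_N, f_1, …, f_m)` is in the class.

For example, sums and products of elements of the class in disjoint sets of variables are in the class
(for `d ≥ 1`), and so are variables, quadratic forms in any number of variables, and forms in `d + 1`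
variables. -/
inductive Sep (k : Type) [Field k] (d : ℕ) : {τ : Type} → MvPolynomial τ k → Prop
  | good {τ : Type} (hτ : Finite τ) (f : MvPolynomial τ k) (w : τ → ℤ) (e : ℤ) (he : e ≠ 0)
      (hf : IsWeightedHomogeneous w f e)
      (h : Built k d (aff k (MvPolynomial τ k ⧸ Ideal.span {f - 1}))) : Sep k d f
  | lin {N : ℕ} {σ : Type} (hσ : Finite σ) (g : Fin N → MvPolynomial σ k)
      (h : Built k d (aff k (MvPolynomial σ k ⧸ Ideal.span (Set.range g)))) : Sep k d (lin g)
  | tri {a b c : ℕ} (T : Fin a → Fin b → Fin c → k) (h : a ≤ d + 2 ∨ b ≤ d + 2 ∨ c ≤ d + 2) :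
      Sep k d (tri T)
  | iso {τ σ : Type} (hσ : Finite σ) (f : MvPolynomial τ k)
      (e : MvPolynomial τ k ≃ₐ[k] MvPolynomial σ k) (hf : Sep k d f) : Sep k d (e f)
  | comp {m : ℕ} (hm : m ≤ d + 1) {τ : Fin m → Type} (f : ∀ i, MvPolynomial (τ i) k)
      (Q : MvPolynomial (Fin m) k) (a : Fin m → ℤ) (e : ℤ) (he : e ≠ 0)
      (hQ : IsWeightedHomogeneous a Q e) (hf : ∀ i, Sep k d (f i)) : Sep k d (aeval (fam f) Q)
  | quad {N m : ℕ} (hm : m ≤ d) {τ : Fin m → Type} (f : ∀ i, MvPolynomial (τ i) k)
      (Q : MvPolynomial (Fin N ⊕ Fin m) k) (a : Fin N ⊕ Fin m → ℤ) (e : ℤ) (he : e ≠ 0)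
      (hQ : IsWeightedHomogeneous a Q e) (h2 : ∀ s ∈ Q.support, ∑ j, s (Sum.inl j) ≤ 2)
      (hf : ∀ i, Sep k d (f i)) :
      Sep k d (aeval (Sum.elim (fun j => X (Sum.inl j)) (fun i => rename Sum.inr (fam f i)) :
        Fin N ⊕ Fin m → MvPolynomial (Fin N ⊕ Σ i, τ i) k) Q)

/-- The scheme `f_1(y_1) = a_1, …, f_m(y_m) = a_m` over the scheme `Spec A`: the polynomials `f_i` involve
disjoint sets `y_i` of variables, and `a_i ∈ A`. -/
noncomputable def fibre {k : Type} [Field k] {m : ℕ} {τ : Fin m → Type}
    (f : ∀ i, MvPolynomial (τ i) k) {A : Type} [CommRing A] [Algebra k A] (a : Fin m → A) : Sch k :=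
  aff k (MvPolynomial (Σ i, τ i) A ⧸
    Ideal.span (Set.range fun i => map (algebraMap k A) (fam f i) - C (a i)))

/-- The scheme `q_1(x) = ⋯ = q_r(x) = 0`, `f_1(y_1) = b_1, …, f_m(y_m) = b_m` over the scheme `Spec B`: the
polynomials `q_j` have coefficients in `B`, and the polynomials `f_i` involve disjoint sets `y_i` of
variables. -/
noncomputable def system {k : Type} [Field k] {m : ℕ} {τ : Fin m → Type}
    (f : ∀ i, MvPolynomial (τ i) k) {N r : ℕ} {B : Type} [CommRing B] [Algebra k B]
    (q : Fin r → MvPolynomial (Fin N) B) (b : Fin m → B) : Sch k :=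
  fibre f fun i => algebraMap B (MvPolynomial (Fin N) B ⧸ Ideal.span (Set.range q)) (b i)

/-- The scheme `U` is the complement of the closed subscheme of `Spec A` with the ideal `J`. -/
def IsComplement {k : Type} [Field k] {A : Type} [CommRing A] [Algebra k A] (J : Ideal A)
    (U : Sch k) : Prop :=
  ∃ j : U ⟶ aff k A, IsOpenImmersion j.left ∧
    Set.range j.left = {x : PrimeSpectrum A | ∃ g ∈ J, g ∉ x.asIdeal}

/-- The property holds for the preimages `F⁻¹(Z)` of the closed subschemes `Z` of dimension at most `d` of
the affine space `𝔸^m`, `F = f_1 × ⋯ × f_m` with `f_i` in the class `Sep k d`, and for their complements in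
the affine space. -/
def OnPreimages (k : Type) [Field k] (d : ℕ) (P : Sch k → Prop) : Prop :=
  ∀ (m : ℕ) (τ : Fin m → Type) (f : ∀ i, MvPolynomial (τ i) k), (∀ i, Sep k d (f i)) →
    ∀ I : Ideal (MvPolynomial (Fin m) k), ringKrullDim (MvPolynomial (Fin m) k ⧸ I) ≤ d →
      P (aff k (MvPolynomial (Σ i, τ i) k ⧸ pre (fam f) I)) ∧
      ∀ U : Sch k, IsComplement (pre (fam f) I) U → P U

/-- The property holds for the schemes `system f q b` over `Spec B` with `f_i` in the class `Sep k d`, `B` of
finite type over `k` and of dimension at most `s ≤ d`, and `r` polynomials `q_j` of degree at most two,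
`s + r ≤ d + 1`. -/
def OnSystems (k : Type) [Field k] (d : ℕ) (P : Sch k → Prop) : Prop :=
  ∀ (m : ℕ) (τ : Fin m → Type) (f : ∀ i, MvPolynomial (τ i) k), (∀ i, Sep k d (f i)) →
    ∀ (N r s : ℕ), s ≤ d → s + r ≤ d + 1 → ∀ (B : Type) [CommRing B] [Algebra k B]
      [Algebra.FiniteType k B], ringKrullDim B ≤ s → ∀ q : Fin r → MvPolynomial (Fin N) B,
      (∀ j, (q j).totalDegree ≤ 2) → ∀ b : Fin m → B, P (system f q b)

section

variable {k : Type} [Field k] {d : ℕ} (hd : 1 ≤ d)

include hd

lemma sep_gd {τ : Type} {f : MvPolynomial τ k} (hf : Sep k d f) : Gd (Built k d) f := by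
  have hP := cls_built (k := k) hd
  have hdim : ∀ (A : Type) [CommRing A] [Algebra k A] [Algebra.FiniteType k A],
      ringKrullDim A ≤ d → Built k d (aff k A) := fun _ _ _ _ hA => built_dim hA
  induction hf with
  | good hτ f w e he hf h => exact gd_good hP f w e he hf h
  | lin hσ g h => exact gd_lin hP g h
  | tri T h => exact gd_tri_le hP hdim T h
  | iso hσ f e _ ih => exact gd_auto hσ ih e
  | comp hm f Q a e he hQ _ ih => exact gd_comp_le hP hdim hm ih Q a e he hQ
  | quad hm f Q a e he hQ h2 _ ih => exact gd_quad hP hdim hm f ih Q a e he hQ h2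

/-- The preimages are built from schemes of dimension at most `d`. -/
theorem built_preimages : OnPreimages k d (Built k d) := by
  intro m τ f hf I hI
  have hP := cls_built (k := k) hd
  have hg := fun i => sep_gd hd (hf i)
  have hfin := fun i => (hg i).1
  have h1 := preimageD hP (fun _ _ _ _ hA => built_dim hA) hg I hI
  refine ⟨h1, fun U ⟨j, hj, hr⟩ => ?_⟩
  have := Fintype.ofFinite (Σ i, τ i)
  have h4 : Built k d (aff k (MvPolynomial (Σ i, τ i) k)) :=
    p_poly hP.toBnd (Σ i, τ i)
      (iso_alg hP.toUni (MvPolynomial.isEmptyAlgEquiv k (Fin 0)) (hP.space 0))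
  exact hP.opened _ j (ft_aff True) (triple_ideal _ U j hj hr) h1 h4

/-- The systems are built from schemes of dimension at most `d`. -/
theorem built_systems : OnSystems k d (Built k d) := by
  intro m τ f hf N r s hs hr B _ _ _ hB q hq b
  exact blocksQ (cls_built hd) (fun _ _ _ _ hA => built_dim hA) hs hr (Fin m) τ f
    (fun i => sep_gd hd (hf i)) B hB q hq b

end

end Pool.Agent.V5helper94.SV
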