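import Pool.Agent.V5helper48.WC.Sign
import Pool.Agent.V5helper94.SV.Sep

/-!
# Weight complexes of products and of finite free coverings
-/

set_option autoImplicit false
set_option linter.unusedSectionVars false

open CategoryTheory CategoryTheory.Limits CategoryTheory.Pretriangulated AlgebraicGeometry
  Pool.Agent.Y116.UV Pool.Agent.Z125.UN Pool.Agent.V5helper77.GW Pool.Agent.V5helper48.WC
  Pool.Agent.V5helper52.SF TensorProduct

namespace Pool.Agent.V5helper94.SV

section exact

variable {C : Type 1} [Category.{0} C] [Preadditive C] [HasZeroObject C] [HasBinaryBiproducts C]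

/-- `K` is a direct summand of `L`. -/
def IsSummand (K L : KCat C) : Prop := ∃ (s : K ⟶ L) (r : L ⟶ K), s ≫ r = 𝟙 K

/-- `K` is a bounded complex, up to homotopy: it lies in the thick subcategory of the category of all
complexes which is generated by the objects of `C` in degree zero. -/
def IsBdd (K : KCat C) : Prop := Thick (fun L => ∃ M : C, L = inZero M) K

/-- The operation `F` on complexes preserves zero objects, and for bounded complexes it preserves direct
summands and distinguished triangles. (Tensor products of unbounded complexes of Chow motives are not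
defined; nothing is said about them.) -/
structure IsExactOp (F : KCat C → KCat C) : Prop where
  zero : ∀ K, IsZero K → IsZero (F K)
  summand : ∀ K L, IsBdd L → IsSummand K L → IsSummand (F K) (F L)
  tri : ∀ K L M, IsBdd K → IsBdd L → IsBdd M → IsTri K L M → IsTri (F K) (F L) (F M)

lemma thick_exact {F : KCat C → KCat C} (hF : IsExactOp F) {P Q : KCat C → Prop}
    (hP : ∀ K, P K → IsBdd K) (h : ∀ K, P K → Thick Q (F K)) {K : KCat C} (hK : Thick P K) :
    Thick Q (F K) := by
  have hB : ∀ K : KCat C, Thick P K → IsBdd K := by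
    intro K hK
    induction hK with
    | of h1 => exact hP _ h1
    | zero h1 => exact .zero h1
    | retract i r h1 _ ih => exact .retract i r h1 ih
    | one T hT _ _ h2 h3 => exact Thick.one T hT h2 h3
    | two T hT _ _ h2 h3 => exact Thick.two T hT h2 h3
    | three T hT _ _ h2 h3 => exact Thick.three T hT h2 h3
  induction hK with
  | of h1 => exact h _ h1
  | zero h1 => exact .zero (hF.zero _ h1)
  | retract i r h1 h0 ih =>
    obtain ⟨s, r, hs⟩ := hF.summand _ _ (hB _ h0) ⟨i, r, h1⟩
    exact .retract s r hs ih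
  | one T hT h5 h6 h2 h3 =>
    obtain ⟨a, b, c, h4⟩ := hF.tri _ _ _ (hB _ (Thick.one T hT h5 h6)) (hB _ h5) (hB _ h6)
      ⟨T.mor₁, T.mor₂, T.mor₃, hT⟩
    exact Thick.one _ h4 h2 h3
  | two T hT h5 h6 h2 h3 =>
    obtain ⟨a, b, c, h4⟩ := hF.tri _ _ _ (hB _ h5) (hB _ (Thick.two T hT h5 h6)) (hB _ h6)
      ⟨T.mor₁, T.mor₂, T.mor₃, hT⟩
    exact Thick.two _ h4 h2 h3
  | three T hT h5 h6 h2 h3 =>
    obtain ⟨a, b, c, h4⟩ := hF.tri _ _ _ (hB _ h5) (hB _ h6) (hB _ (Thick.three T hT h5 h6))
      ⟨T.mor₁, T.mor₂, T.mor₃, hT⟩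
    exact Thick.three _ h4 h2 h3

end exact

variable {k : Type} [Field k]

/-- The tensor products of Chow motives, of morphisms of Chow motives, and of complexes of Chow
motives. -/
structure TensorData (T : ChowData k) where
  /-- the tensor product of motives -/
  ten : T.C → T.C → T.C
  /-- the tensor product of endomorphisms -/
  tmap : ∀ {M N : T.C}, (M ⟶ M) → (N ⟶ N) → (ten M N ⟶ ten M N)
  /-- the tensor product of complexes -/
  tenK : KCat T.C → KCat T.C → KCat T.C

/-- The properties of the tensor product and of the weight complexes (Gillet and Soulé):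

* `inZero`: the tensor product of complexes in degree zero;
* `left`, `right`: the tensor product of bounded complexes is exact in both variables;
* `kunneth`: `W (X × Y) = W X ⊗ W Y` for affine schemes `X = Spec A` and `Y = Spec B`;
* `free`: for a finite covering `Y → X` of affine schemes such that the algebra of `Y` is free of rank
  `n > 0` over the algebra of `X` the weight complex of `X` is a direct summand of the one of `Y`
  (the composition of the pull-back and of the push-forward is the multiplication by `n`). -/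
structure IsTensorChow {T : ChowData k} (D : TensorData T) : Prop where
  inZero : ∀ M N : T.C, Nonempty (D.tenK (inZero M) (inZero N) ≅ inZero (D.ten M N))
  left : ∀ L : KCat T.C, IsBdd L → IsExactOp fun K => D.tenK K L
  right : ∀ K : KCat T.C, IsBdd K → IsExactOp fun L => D.tenK K L
  kunneth : ∀ (A B : Type) [CommRing A] [Algebra k A] [Algebra.FiniteType k A] [CommRing B]
    [Algebra k B] [Algebra.FiniteType k B],
    Nonempty (T.W (aff k (A ⊗[k] B)) ≅ D.tenK (T.W (aff k A)) (T.W (aff k B)))
  free : ∀ (A B : Type) [CommRing A] [Algebra k A] [Algebra.FiniteType k A] [CommRing B]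
    [Algebra k B] [Algebra A B] [IsScalarTower k A B] (n : ℕ), 0 < n →
    Nonempty (B ≃ₗ[A] (Fin n → A)) → IsSummand (T.W (aff k A)) (T.W (aff k B))

variable {T : ChowData k} {D : TensorData T} {S : T.C → Prop} {Sm : Sch k → Prop}

/-- Tensor products of complexes which are built from motives of a class. -/
lemma thick_ten (hD : IsTensorChow D) (hS : ∀ M N, S M → S N → S (D.ten M N)) {K L : KCat T.C}
    (hK : Thick (fun K => ∃ M, S M ∧ K = inZero M) K)
    (hL : Thick (fun K => ∃ M, S M ∧ K = inZero M) L) :
    Thick (fun K => ∃ M, S M ∧ K = inZero M) (D.tenK K L) := by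
  have hb : ∀ K : KCat T.C, (∃ M, S M ∧ K = Pool.Agent.V5helper48.WC.inZero M) → IsBdd K :=
    fun K ⟨M, _, h⟩ => .of ⟨M, h⟩
  refine thick_exact (hD.left L (Thick.mono (fun K ⟨M, _, h⟩ => ⟨M, h⟩) hL)) hb ?_ hK
  rintro _ ⟨M, hM, rfl⟩
  refine thick_exact (hD.right (Pool.Agent.V5helper48.WC.inZero M) (.of ⟨M, rfl⟩)) hb ?_ hL
  rintro _ ⟨N, hN, rfl⟩
  exact Thick.iso (hD.inZero M N) (.of ⟨_, hS M N hM hN, rfl⟩)

/-- The closure properties of the schemes whose weight complexes are built from the class. -/
theorem cls_chow (hT : IsChowTheory Sm T) (hD : IsTensorChow D) (hS : IsTwistStable T S)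
    (hten : ∀ M N, S M → S N → S (D.ten M N))
    (h1 : ∀ X : Sch k, FT True X → topologicalKrullDim X.left ≤ 1 → T.Built S X) :
    Cls True (T.Built S) where
  toBnd := bnd_built hT hS
  prod A B _ _ _ _ _ _ hA hB := Thick.iso (hD.kunneth A B) (thick_ten hD hten hA hB)
  free A B _ _ _ _ _ _ _ n hn hb h := by
    obtain ⟨s, r, hs⟩ := hD.free A B n hn hb
    exact Thick.retract s r hs h
  curve A _ _ _ hA := by
    refine h1 _ (ft_aff True) ?_
    rw [topDim_aff]
    exact hA

/-- **The weight complexes of the schemes which are built from schemes of dimension at most `d`.** -/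
theorem chow_built [PerfectField k] (hA : DeJong k) (hT : IsChowTheory IsSmProper T)
    (ht : HasTransfer T) (hD : IsTensorChow D) (hS : IsTwistStable T S)
    (hten : ∀ M N, S M → S N → S (D.ten M N)) {d : ℕ} (hd : 1 ≤ d)
    (h : ∀ X : Sch k, IsSmProper X → topologicalKrullDim X.left ≤ d → S (T.h X)) :
    (∀ X : Sch k, Built k d X → T.Built S X) ∧
      ∀ X : Sch k, IsSmProper X → Built k d X → S (T.h X) := by
  have hs : ∀ X : Sch k, IsSmProj X → IsSmProper X := fun X hX => .of_smProj hX
  have h2 : ∀ X : Sch k, IsSmProper X → FT True X := fun X hX => hX.ft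
  have h3 := (graded_of hT hS hs h2 d (deJong_devissage hT ht hS hA d)).1.mp h
  have key : ∀ X : Sch k, Built k d X → T.Built S X := by
    intro X hX
    refine built_le (cls_chow hT hD hS hten fun Y hY hd1 => h3 Y hY ?_) h3 hX
    exact hd1.trans (by exact_mod_cast hd)
  exact ⟨key, fun X hX hb => (built_smooth hT hS.toIsSummandClass hX).mp (key X hb)⟩

/-! ### the sign conjecture -/

variable {F : Type} [Field F]

/-- The cohomology `H^i(M)`. -/
def Coh (H : Cohomology T F) (i : ℤ) (M : T.C) : ModuleCat.{0} F := (H.H i).obj M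

/-- The action of a morphism of motives on the cohomology. -/
def cohMap (H : Cohomology T F) (i : ℤ) {M N : T.C} (f : M ⟶ N) : Coh H i M → Coh H i N :=
  fun x => (H.H i).map f x

/-- Products `H^a(M) × H^b(N) → H^(a + b)(L)`. -/
def Products (H : Cohomology T F) (M N L : T.C) : Type :=
  ∀ a b : ℤ, Coh H a M → Coh H b N → Coh H (a + b) L

/-- The products are additive in both variables. -/
def IsBiadditive {H : Cohomology T F} {M N L : T.C} (p : Products H M N L) : Prop :=
  ∀ (a b : ℤ) (x x' : Coh H a M) (y y' : Coh H b N),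
    p a b (x + x') y = p a b x y + p a b x' y ∧ p a b x (y + y') = p a b x y + p a b x y'

/-- The products `H^a(M) × H^b(N) → H^(a + b)(M ⊗ N)` are compatible with endomorphisms of `M` and `N`. -/
def IsNatural {H : Cohomology T F} {D : TensorData T} {M N : T.C}
    (p : Products H M N (D.ten M N)) : Prop :=
  ∀ (e : M ⟶ M) (f : N ⟶ N) (a b : ℤ) (x : Coh H a M) (y : Coh H b N),
    cohMap H (a + b) (D.tmap e f) (p a b x y) = p a b (cohMap H a e x) (cohMap H b f y)

/-- The products of the elements of `H^a(M)` and `H^b(N)`, `a + b = i`, generate `H^i(L)`: two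
endomorphisms of `L` which agree on these products are equal on `H^i(L)`. -/
def Generates {H : Cohomology T F} {M N L : T.C} (p : Products H M N L) : Prop :=
  ∀ (g g' : L ⟶ L) (i : ℤ),
    (∀ a b : ℤ, a + b = i → ∀ (x : Coh H a M) (y : Coh H b N),
      cohMap H (a + b) g (p a b x y) = cohMap H (a + b) g' (p a b x y)) →
    ∀ z : Coh H i L, cohMap H i g z = cohMap H i g' z

/-- Künneth formula: there are biadditive products `H^a(M) × H^b(N) → H^(a + b)(M ⊗ N)` which are compatible
with endomorphisms and which generate the cohomology of `M ⊗ N`. -/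
def HasKunneth (H : Cohomology T F) (D : TensorData T) : Prop :=
  ∀ M N : T.C, ∃ p : Products H M N (D.ten M N), IsBiadditive p ∧ IsNatural p ∧ Generates p

/-- The sign conjecture for tensor products. -/
theorem cPlus_ten {H : Cohomology T F} (hK : HasKunneth H D) (M N : T.C) (hM : CPlus H M)
    (hN : CPlus H N) : CPlus H (D.ten M N) := by
  obtain ⟨e, he⟩ := hM
  obtain ⟨f, hf⟩ := hN
  have key : ∃ p : ∀ a b : ℤ, (H.H a).obj M → (H.H b).obj N → (H.H (a + b)).obj (D.ten M N),
      (∀ (a b : ℤ) (y : (H.H b).obj N), p a b 0 y = 0) ∧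
      (∀ (a b : ℤ) (x : (H.H a).obj M), p a b x 0 = 0) ∧
      (∀ (e : M ⟶ M) (f : N ⟶ N) (a b : ℤ) (x : (H.H a).obj M) (y : (H.H b).obj N),
        (H.H (a + b)).map (D.tmap e f) (p a b x y) = p a b ((H.H a).map e x) ((H.H b).map f y)) ∧
      ∀ (g g' : D.ten M N ⟶ D.ten M N) (i : ℤ),
        (∀ a b : ℤ, a + b = i → ∀ (x : (H.H a).obj M) (y : (H.H b).obj N),
          (H.H (a + b)).map g (p a b x y) = (H.H (a + b)).map g' (p a b x y)) →
        (H.H i).map g = (H.H i).map g' := by
    obtain ⟨p, h0, h1, h2⟩ := hK M N
    refine ⟨p, fun a b y => ?_, fun a b x => ?_, h1, fun g g' i h => ?_⟩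
    · have h3 := (h0 a b 0 0 y y).1
      rw [add_zero] at h3
      exact left_eq_add.mp h3
    · have h3 := (h0 a b x x 0 0).2
      rw [add_zero] at h3
      exact left_eq_add.mp h3
    · ext z
      exact h2 g g' i h z
  obtain ⟨p, hp1, hp2, hp, hg⟩ := key
  let E : D.ten M N ⟶ D.ten M N := D.tmap e f + D.tmap (𝟙 M - e) (𝟙 N - f)
  have hE : ∀ (a b : ℤ) (x : (H.H a).obj M) (y : (H.H b).obj N),
      (H.H (a + b)).map E (p a b x y) = p a b ((H.H a).map e x) ((H.H b).map f y) +
        p a b (x - (H.H a).map e x) (y - (H.H b).map f y) := by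
    intro a b x y
    have h1 : (H.H (a + b)).map E (p a b x y) = (H.H (a + b)).map (D.tmap e f) (p a b x y) +
        (H.H (a + b)).map (D.tmap (𝟙 M - e) (𝟙 N - f)) (p a b x y) := by
      rw [(H.H (a + b)).map_add]
      rfl
    have h2 : (H.H a).map (𝟙 M - e) x = x - (H.H a).map e x := by
      rw [(H.H a).map_sub, CategoryTheory.Functor.map_id]
      rfl
    have h3 : (H.H b).map (𝟙 N - f) y = y - (H.H b).map f y := by
      rw [(H.H b).map_sub, CategoryTheory.Functor.map_id]
      rfl
    rw [h1, hp, hp, h2, h3]
  refine ⟨E, fun i => ⟨fun hi => ?_, fun hi => ?_⟩⟩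
  · rw [← CategoryTheory.Functor.map_id]
    refine hg E (𝟙 _) i fun a b hab x y => ?_
    rw [hE, CategoryTheory.Functor.map_id]
    change _ = p a b x y
    rcases Int.even_or_odd a with ha | ha
    · have hb : Even b := by
        rw [← hab] at hi
        exact (Int.even_add.mp hi).mp ha
      rw [(he a).1 ha, (hf b).1 hb]
      change p a b x y + p a b (x - x) (y - y) = p a b x y
      rw [sub_self, hp1, add_zero]
    · have hb : Odd b := by
        rw [← Int.not_even_iff_odd] at ha ⊢
        rw [← hab] at hi
        exact fun h => ha ((Int.even_add.mp hi).mpr h)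
      rw [(he a).2 ha, (hf b).2 hb]
      change p a b 0 0 + p a b (x - 0) (y - 0) = p a b x y
      rw [hp1, zero_add, sub_zero, sub_zero]
  · have h0 : (H.H i).map E = (H.H i).map (0 : D.ten M N ⟶ D.ten M N) := by
      refine hg E 0 i fun a b hab x y => ?_
      rw [hE, CategoryTheory.Functor.map_zero]
      change _ = (0 : (H.H (a + b)).obj (D.ten M N))
      rcases Int.even_or_odd a with ha | ha
      · have hb : Odd b := by
          rw [← hab] at hi
          rw [← Int.not_even_iff_odd] at hi ⊢
          exact fun h => hi (Int.even_add.mpr ⟨fun _ => h, fun _ => ha⟩)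
        rw [(he a).1 ha, (hf b).2 hb]
        change p a b x 0 + p a b (x - x) (y - 0) = 0
        rw [hp2, sub_self, hp1, add_zero]
      · have hb : Even b := by
          rw [← hab] at hi
          by_contra h
          rw [Int.not_even_iff_odd] at h
          have := ha.add_odd h
          rw [← Int.not_odd_iff_even] at this
          exact this hi
        rw [(he a).2 ha, (hf b).1 hb]
        change p a b 0 y + p a b (x - 0) (y - y) = 0
        rw [hp1, sub_self, hp2, add_zero]
    rw [h0, CategoryTheory.Functor.map_zero]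

end Pool.Agent.V5helper94.SV
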