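import Pool.Agent.V5helper94.SV.Quad

/-!
# Compositions with polynomials which have degree at most two in the other variables
-/

set_option autoImplicit false

open CategoryTheory AlgebraicGeometry MvPolynomial Pool.Agent.Y116.UV Pool.Agent.Z125.UN
  Pool.Agent.V5helper52.SF TensorProduct

namespace Pool.Agent.V5helper94.SV

variable {k : Type} [Field k]

/-- two families of blocks -/
theorem fibSum {α β : Type} {τ : α ⊕ β → Type} (f : ∀ i, MvPolynomial (τ i) k) {B : Type}
    [CommRing B] [Algebra k B] (b : α ⊕ β → B) :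
    Nonempty (Fib (fam f) B b ≃ₐ[k] Fib (fam fun j => f (Sum.inr j))
      (Fib (fam fun i => f (Sum.inl i)) B (fun i => b (Sum.inl i)))
      (fun j => fc _ _ (b (Sum.inr j)))) := by
  obtain ⟨e1⟩ := fibTwo (fam fun i => f (Sum.inl i)) (fun i => b (Sum.inl i))
    (fam fun j => f (Sum.inr j)) (fun j => b (Sum.inr j))
  obtain ⟨e2⟩ := fibRe (B := B) (Sum.elim (fun i => rename Sum.inl ((fam fun i => f (Sum.inl i)) i))
    (fun j => rename Sum.inr ((fam fun j => f (Sum.inr j)) j)) :
      α ⊕ β → MvPolynomial ((Σ i, τ (Sum.inl i)) ⊕ (Σ j, τ (Sum.inr j))) k)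
    (fam f) (Equiv.sumSigmaDistrib τ).symm (Equiv.refl _) (by
      rintro (a | u)
      · change fam f (Sum.inl a) = rename _ (rename _ (rename _ _))
        rw [rename_rename, rename_rename]
        rfl
      · change fam f (Sum.inr u) = rename _ (rename _ (rename _ _))
        rw [rename_rename, rename_rename]
        rfl) b
  have h : (fun i => b ((Equiv.refl (α ⊕ β)) i)) =
      Sum.elim (fun i => b (Sum.inl i)) (fun j => b (Sum.inr j)) := by
    funext i
    rcases i with a | u <;> rfl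
  rw [h] at e2
  exact ⟨e2.symm.trans e1⟩

/-- a block of free variables -/
theorem fibVars {β : Type} {B : Type} [CommRing B] [Algebra k B] (b : β → B) :
    ∃ e : Fib (fam fun _ : β => (X () : MvPolynomial Unit k)) B b ≃ₐ[k] B,
      ∀ x, e (fc _ _ x) = x := by
  let F : β → MvPolynomial (Σ _ : β, Unit) k := fam fun _ : β => (X () : MvPolynomial Unit k)
  have hF : ∀ i, F i = X ⟨i, ()⟩ := fun i => rename_X _ _
  let f : Fib F B b →ₐ[k] B := fibLift (AlgHom.id k B) (fun t => b t.1) (fun i => by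
    rw [hF, aeval_X]
    rfl)
  have hfc : ∀ x, f (fc F b x) = x := fun x => fibLift_fc _ _ _ x
  have hfv : ∀ t, f (fv F b t) = b t.1 := fun t => fibLift_fv _ _ _ t
  refine ⟨mkIso f (fc F b) ?_ ?_, hfc⟩
  · apply fib_ext
    · intro x
      rw [AlgHom.comp_apply, hfc]
      rfl
    · rintro ⟨i, u⟩
      rw [AlgHom.comp_apply, hfv]
      have h := fib_rel (F := F) (b := b) i
      rw [hF, aeval_X] at h
      exact h.symm
  · exact AlgHom.ext hfc

lemma iter_deg {N m n : ℕ} (Q : MvPolynomial (Fin N ⊕ Fin m) k)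
    (h : ∀ s ∈ Q.support, ∑ j, s (Sum.inl j) ≤ n) :
    (sumAlgEquiv k (Fin N) (Fin m) Q).totalDegree ≤ n := by
  have h0 : sumAlgEquiv k (Fin N) (Fin m) Q =
      ∑ s ∈ Q.support, sumAlgEquiv k (Fin N) (Fin m) (monomial s (coeff s Q)) := by
    conv_lhs => rw [Q.as_sum]
    rw [map_sum]
  rw [h0]
  refine totalDegree_finsetSum_le fun s hs => ?_
  rw [monomial_eq, map_mul, sumAlgEquiv_C_inl, Finsupp.prod, map_prod]
  refine (totalDegree_mul _ _).trans ?_
  rw [totalDegree_C, zero_add]
  refine (totalDegree_finsetProd _ _).trans ?_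
  have h1 : ∀ t : Fin N ⊕ Fin m,
      (sumAlgEquiv k (Fin N) (Fin m) (X t ^ s t)).totalDegree ≤
      Sum.elim (fun j => s (Sum.inl j)) (fun _ => 0) t := by
    rintro (j | i)
    · rw [map_pow, sumAlgEquiv_X_inl]
      refine (totalDegree_pow _ _).trans ?_
      rw [totalDegree_X, mul_one]
      rfl
    · rw [map_pow, sumAlgEquiv_X_inr]
      refine (totalDegree_pow _ _).trans ?_
      rw [totalDegree_C, mul_zero]
      rfl
  refine (Finset.sum_le_sum fun t _ => h1 t).trans ?_
  refine (Finset.sum_le_sum_of_subset (Finset.subset_univ _)).trans ?_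
  rw [Fintype.sum_sum_type]
  simp only [Sum.elim_inl, Sum.elim_inr, Finset.sum_const_zero, add_zero]
  exact h s hs

/-- iterated polynomial rings -/
theorem iterQuot {N m : ℕ} (Q : MvPolynomial (Fin N ⊕ Fin m) k) :
    ∃ e : (MvPolynomial (Fin N ⊕ Fin m) k ⧸ Ideal.span {Q}) ≃ₐ[k]
      Tq (Ideal.span (Set.range fun _ : Fin 1 => sumAlgEquiv k (Fin N) (Fin m) Q)),
      ∀ i, e (Ideal.Quotient.mk _ (X (Sum.inr i))) = tc k _ (X i) := by
  let f := sumAlgEquiv k (Fin N) (Fin m)
  let J := Ideal.span (Set.range fun _ : Fin 1 => f Q)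
  have hJ : J = (Ideal.span {Q}).map (f : _ →+* _) := by
    rw [Ideal.map_span, Set.image_singleton]
    change Ideal.span _ = _
    rw [Set.range_const]
    rfl
  refine ⟨Ideal.quotientEquivAlg (Ideal.span {Q}) J f hJ, fun i => ?_⟩
  change Ideal.Quotient.mk J (f (X (Sum.inr i))) = tc k J (X i)
  rw [show f (X (Sum.inr i)) = C (X i) from sumAlgEquiv_X_inr k (Fin N) (Fin m) i]
  rfl

/-- Weights of a composition. -/
lemma gd_lift {P : Sch k → Prop} {ι : Type} [Finite ι] {τ σ : ι → Type} (hτ : ∀ i, Finite (τ i))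
    (hσ : ∀ i, Finite (σ i)) (e : ∀ i, MvPolynomial (σ i) k ≃ₐ[k] MvPolynomial (τ i) k)
    (w : ∀ i, σ i → ℤ) (M : ι → ℕ) (g : ∀ i, MvPolynomial (σ i) k)
    (f : ∀ i, MvPolynomial (τ i) k) (hM : ∀ i, 0 < M i)
    (hg : ∀ i, IsWeightedHomogeneous (w i) (g i) (M i : ℤ)) (he : ∀ i, e i (g i) = f i)
    (Q : MvPolynomial ι k) (a : ι → ℤ) (c : ℤ) (hc : c ≠ 0) (hQ : IsWeightedHomogeneous a Q c)
    (hP1 : P (aff k (Fib (one (aeval (fam g) Q)) k (fun _ => (1 : k))))) :
    Gd P (aeval (fam f) Q) := by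
  have := Fintype.ofFinite ι
  classical
  have hcomp : famIso e (aeval (fam g) Q) = aeval (fam f) Q := by
    have h := map_aeval' (famIso e).toAlgHom (fam g) Q
    refine h.trans ?_
    congr 2
    funext i
    refine (famIso_fam e g i).trans ?_
    simp_rw [he]
  let L : ℤ := ∏ j, (M j : ℤ)
  let c' : ι → ℤ := fun i => a i * ∏ j ∈ Finset.univ.erase i, (M j : ℤ)
  have hL : L ≠ 0 := Finset.prod_ne_zero_iff.mpr fun j _ => by
    have := hM j
    omega
  have hc' : ∀ i, c' i * (M i : ℤ) = a i * L := by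
    intro i
    rw [mul_assoc, Finset.prod_erase_mul _ _ (Finset.mem_univ i)]
  have hwh : IsWeightedHomogeneous (fun t : Σ i, σ i => c' t.1 * w t.1 t.2) (aeval (fam g) Q)
      (c * L) := by
    refine wh_comp (fun i => ?_) hQ
    apply wh_rename
    have h := wh_scale (c' i) (hg i)
    rw [hc' i] at h
    exact h
  rcases lt_or_gt_of_ne (mul_ne_zero hc hL) with h | h
  · refine ⟨inferInstance, _, inferInstance, famIso e, fun t => - (c' t.1 * w t.1 t.2),
      (-(c * L)).toNat, aeval (fam g) Q, by omega, ?_, hcomp, hP1⟩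
    have h2 : (((-(c * L)).toNat : ℕ) : ℤ) = -(c * L) := by omega
    rw [h2]
    exact wh_neg hwh
  · refine ⟨inferInstance, _, inferInstance, famIso e, fun t => c' t.1 * w t.1 t.2,
      (c * L).toNat, aeval (fam g) Q, by omega, ?_, hcomp, hP1⟩
    have h2 : (((c * L).toNat : ℕ) : ℤ) = c * L := by omega
    rw [h2]
    exact hwh

/-- A family of polynomials, extended by variables. -/
noncomputable def ext {N m : ℕ} {σ : Fin m → Type} (g : ∀ i, MvPolynomial (σ i) k) :
    ∀ i : Fin N ⊕ Fin m, MvPolynomial (Sum.elim (fun _ => Unit) σ i) k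
  | Sum.inl _ => (X () : MvPolynomial Unit k)
  | Sum.inr i => g i

section

variable {sep : Prop} {P : Sch k → Prop} (hP : Cls sep P) {d : ℕ}
  (hd : ∀ (A : Type) [CommRing A] [Algebra k A] [Algebra.FiniteType k A], ringKrullDim A ≤ d →
    P (aff k A))

include hP hd

/-- The preimage of a family of quadrics. -/
theorem preQ {N m : ℕ} (hm : m ≤ d) {σ : Fin m → Type} (g : ∀ i, MvPolynomial (σ i) k)
    (hg : ∀ i, Gd P (g i)) (Q : MvPolynomial (Fin N ⊕ Fin m) k)
    (hQ : ∀ s ∈ Q.support, ∑ j, s (Sum.inl j) ≤ 2) :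
    P (aff k (MvPolynomial (Σ i, Sum.elim (fun _ : Fin N => Unit) σ i) k ⧸
      pre (fam (ext (N := N) g)) (Ideal.span {Q}))) := by
  have hfin := fun i => (hg i).1
  have hfin' : ∀ i : Fin N ⊕ Fin m, Finite (Sum.elim (fun _ : Fin N => Unit) σ i) := by
    rintro (j | i)
    · exact inferInstanceAs (Finite Unit)
    · exact hfin i
  have hfin1 : ∀ i : Fin N, Finite (Sum.elim (fun _ : Fin N => Unit) σ (Sum.inl i)) := fun i =>
    hfin' _
  have hfin2 : ∀ i : Fin m, Finite (Sum.elim (fun _ : Fin N => Unit) σ (Sum.inr i)) := fun i =>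
    hfin' _
  let B : Type := MvPolynomial (Fin N ⊕ Fin m) k ⧸ Ideal.span {Q}
  let b : Fin N ⊕ Fin m → B := fun i => Ideal.Quotient.mk _ (X i)
  refine iso' hP (fibPre (fam (ext (N := N) g)) (Ideal.span {Q})) ?_
  refine iso_symm hP (fibSum (ext (N := N) g) b) ?_
  obtain ⟨e1, he1⟩ := fibVars (k := k) (fun i : Fin N => b (Sum.inl i))
  obtain ⟨e2, he2⟩ := iterQuot Q
  have h1 := blocksQ hP hd hm (Nat.succ_le_succ hm) (Fin m) _ g hg (MvPolynomial (Fin m) k) (dim_space m)
    (fun _ : Fin 1 => sumAlgEquiv k (Fin N) (Fin m) Q) (fun _ => iter_deg Q hQ) X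
  have h2 : P (aff k (Fib (fam g) B (fun j => b (Sum.inr j)))) := by
    refine iso_symm hP (fibCongr _ e2 _) ?_
    have h3 : (fun j => e2 (b (Sum.inr j))) = fun j => tc k _ (X j) := funext he2
    rw [h3]
    exact h1
  have h4 : P (aff k (Fib (fam g) (Fib (fam fun _ : Fin N => (X () : MvPolynomial Unit k)) B
      (fun i => b (Sum.inl i))) (fun j => fc _ _ (b (Sum.inr j))))) := by
    refine iso_symm hP (fibCongr _ e1 _) ?_
    have h3 : (fun j : Fin m => e1 (fc _ _ (b (Sum.inr j)))) = fun j => b (Sum.inr j) :=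
      funext fun j => he1 _
    rw [h3]
    exact h2
  exact h4

/-- **Compositions with polynomials of degree at most two in the other variables.** -/
theorem gd_quad {N m : ℕ} (hm : m ≤ d) {τ : Fin m → Type} (f : ∀ i, MvPolynomial (τ i) k)
    (hf : ∀ i, Gd P (f i)) (Q : MvPolynomial (Fin N ⊕ Fin m) k) (a : Fin N ⊕ Fin m → ℤ) (c : ℤ)
    (hc : c ≠ 0) (hQ : IsWeightedHomogeneous a Q c)
    (h2 : ∀ s ∈ Q.support, ∑ j, s (Sum.inl j) ≤ 2) :
    Gd P (aeval (Sum.elim (fun j => X (Sum.inl j)) (fun i => rename Sum.inr (fam f i)) :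
      Fin N ⊕ Fin m → MvPolynomial (Fin N ⊕ Σ i, τ i) k) Q) := by
  have hfin := fun i => (hf i).1
  choose _ σ hσ e w M g hM hg he h1 using hf
  have hg' : ∀ i, Gd P (g i) := fun i =>
    ⟨hσ i, σ i, hσ i, AlgEquiv.refl, w i, M i, g i, hM i, hg i, rfl, h1 i⟩
  have hfin' : ∀ (ρ : Fin m → Type), (∀ i, Finite (ρ i)) →
      ∀ i : Fin N ⊕ Fin m, Finite (Sum.elim (fun _ : Fin N => Unit) ρ i) := by
    rintro ρ hρ (j | i)
    · exact inferInstanceAs (Finite Unit)
    · exact hρ i
  let e' : ∀ i : Fin N ⊕ Fin m, MvPolynomial (Sum.elim (fun _ : Fin N => Unit) σ i) k ≃ₐ[k]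
      MvPolynomial (Sum.elim (fun _ : Fin N => Unit) τ i) k := fun i => match i with
    | Sum.inl _ => (AlgEquiv.refl : MvPolynomial Unit k ≃ₐ[k] MvPolynomial Unit k)
    | Sum.inr i => e i
  let w' : ∀ i : Fin N ⊕ Fin m, Sum.elim (fun _ : Fin N => Unit) σ i → ℤ := fun i => match i with
    | Sum.inl _ => fun _ => 1
    | Sum.inr i => w i
  let M' : Fin N ⊕ Fin m → ℕ := Sum.elim (fun _ => 1) M
  have key : Gd P (aeval (fam (ext (N := N) f)) Q) := by
    refine gd_lift (P := P) (hfin' τ hfin) (hfin' σ hσ) e' w' M' (ext (N := N) g)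
      (ext (N := N) f) ?_ ?_ ?_ Q a c hc hQ ?_
    · rintro (j | i)
      · exact one_pos
      · exact hM i
    · rintro (j | i)
      · exact isWeightedHomogeneous_X k (fun _ : Unit => (1 : ℤ)) ()
      · exact hg i
    · rintro (j | i)
      · rfl
      · exact he i
    · have := hfin' σ hσ
      rw [fib_level hP, C_1]
      have h := preQ hP hd hm g hg' (Q - 1) (fun s hs => ?_)
      · rw [pre_span, map_sub, map_one] at h
        exact h
      · classical
        have h3 : s ∈ Q.support ∪ (1 : MvPolynomial (Fin N ⊕ Fin m) k).support :=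
          support_sub _ _ _ hs
        rcases Finset.mem_union.mp h3 with h3 | h3
        · exact h2 s h3
        · have h4 : s = 0 := by
            by_contra h5
            rw [mem_support_iff, coeff_one, if_neg (Ne.symm h5)] at h3
            exact h3 rfl
          rw [h4]
          simp
  -- renaming
  let u : (Σ i : Fin N ⊕ Fin m, Sum.elim (fun _ : Fin N => Unit) τ i) ≃ Fin N ⊕ Σ i, τ i :=
    (Equiv.sumSigmaDistrib _).trans (Equiv.sumCongr (Equiv.sigmaPUnit _) (Equiv.refl _))
  have h4 := gd_auto (P := P) (inferInstance : Finite (Fin N ⊕ Σ i, τ i)) key (renameEquiv k u)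
  have h5 : renameEquiv k u (aeval (fam (ext (N := N) f)) Q) =
      aeval (Sum.elim (fun j => X (Sum.inl j)) (fun i => rename Sum.inr (fam f i)) :
      Fin N ⊕ Fin m → MvPolynomial (Fin N ⊕ Σ i, τ i) k) Q := by
    have h := map_aeval' (renameEquiv k u).toAlgHom (fam (ext (N := N) f)) Q
    refine h.trans ?_
    congr 2
    funext i
    rcases i with j | i
    · change rename u (rename _ (X ())) = X (Sum.inl j)
      rw [rename_X, rename_X]
      rfl
    · change rename u (rename _ (f i)) = rename Sum.inr (rename _ (f i))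
      rw [rename_rename, rename_rename]
      rfl
  rw [h5] at h4
  exact h4

end

end Pool.Agent.V5helper94.SV
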