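import Pool.Agent.V5helper94.SV.Built

/-!
# Separated variables over schemes of dimension at most `d`
-/

set_option autoImplicit false

open CategoryTheory AlgebraicGeometry MvPolynomial Pool.Agent.Y116.UV Pool.Agent.Z125.UN
  Pool.Agent.V5helper52.SF TensorProduct

namespace Pool.Agent.V5helper94.SV

variable {k : Type} [Field k] {sep : Prop} {P : Sch k → Prop} (hP : Cls sep P) {d : ℕ}
  (hd : ∀ (A : Type) [CommRing A] [Algebra k A] [Algebra.FiniteType k A], ringKrullDim A ≤ d →
    P (aff k A))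

include hP hd

/-- **Blocks of variables over a scheme of dimension at most `d`.** -/
theorem blocksD (ι : Type) [Finite ι] : ∀ (τ : ι → Type) (f : ∀ i, MvPolynomial (τ i) k),
    (∀ i, Gd P (f i)) → ∀ (B : Type) [CommRing B] [Algebra k B] [Algebra.FiniteType k B],
    ringKrullDim B ≤ d → ∀ b : ι → B, P (aff k (Fib (fam f) B b)) := by
  refine (Finite.induction_empty_option (P := fun ι : Type => Finite ι ∧ ∀ (τ : ι → Type)
    (f : ∀ i, MvPolynomial (τ i) k), (∀ i, Gd P (f i)) → ∀ (B : Type) [CommRing B] [Algebra k B]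
    [Algebra.FiniteType k B], ringKrullDim B ≤ d → ∀ b : ι → B,
    P (aff k (Fib (fam f) B b))) ?_ ⟨inferInstance, ?_⟩ ?_ ι).2
  · rintro α β v ⟨hα, h⟩
    refine ⟨Finite.of_equiv α v, fun τ f hf B _ _ _ hB b => ?_⟩
    have := fun i => (hf i).1
    exact iso' hP (fibEq v f b) (h _ (fun a => f (v a)) (fun a => hf (v a)) B hB _)
  · intro τ f hf B _ _ _ hB b
    refine hd _ ?_
    have h : Function.Surjective (fc (fam f) b) := by
      intro x
      obtain ⟨p, rfl⟩ := fmk_surj x
      obtain ⟨y, rfl⟩ := C_surjective (σ := Σ i, τ i) p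
      exact ⟨y, rfl⟩
    exact (ringKrullDim_le_of_surjective (fc (fam f) b).toRingHom h).trans hB
  · rintro α _ ⟨_, ih⟩
    refine ⟨inferInstance, fun τ f hf B _ _ _ hB b => ?_⟩
    have hfin := fun i => (hf i).1
    obtain ⟨N, hN, hst⟩ := gd_step hP (hf none)
    let b' : α → B := fun a => b (some a)
    let E := Fib (fam fun a => f (some a)) B b'
    have key : P (aff k (Fib (one (f none)) E (fun _ => fc _ _ (b none)))) := by
      apply hst
      · refine iso_symm hP (fibQuot (fam fun a => f (some a)) b' (b none)) ?_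
        exact ih _ _ (fun a => hf (some a)) _ ((ringKrullDim_quotient_le _).trans hB) _
      · have := kum_ft (k := k) hN (b none)
        refine iso_symm hP (fibKum (fam fun a => f (some a)) b' N (b none)) ?_
        exact ih _ _ (fun a => hf (some a)) _ ((kum_dim hN (b none)).trans hB) _
    exact iso_symm hP (fibOpt f b) key

/-- The preimage of a scheme of dimension at most `d`. -/
theorem preimageD {ι : Type} [Finite ι] {τ : ι → Type} {f : ∀ i, MvPolynomial (τ i) k}
    (hf : ∀ i, Gd P (f i)) (I : Ideal (MvPolynomial ι k))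
    (hI : ringKrullDim (MvPolynomial ι k ⧸ I) ≤ d) :
    P (aff k (MvPolynomial (Σ i, τ i) k ⧸ pre (fam f) I)) := by
  have := fun i => (hf i).1
  exact iso' hP (fibPre (fam f) I) (blocksD hP hd ι τ f hf _ hI _)

/-- **Compositions.** -/
theorem gd_compD {ι : Type} [Finite ι] {τ : ι → Type} {f : ∀ i, MvPolynomial (τ i) k}
    (hf : ∀ i, Gd P (f i)) (Q : MvPolynomial ι k) (a : ι → ℤ) (e : ℤ) (he : e ≠ 0)
    (hQ : IsWeightedHomogeneous a Q e)
    (hdim : ringKrullDim (MvPolynomial ι k ⧸ Ideal.span {Q - 1}) ≤ d) :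
    Gd P (aeval (fam f) Q) := by
  have hfin := fun i => (hf i).1
  have := Fintype.ofFinite ι
  classical
  choose _ σ hσ e' w N g hN hg he' h1 using hf
  have hcomp : famIso e' (aeval (fam g) Q) = aeval (fam f) Q := by
    have h := map_aeval' (famIso e').toAlgHom (fam g) Q
    refine h.trans ?_
    congr 2
    funext i
    refine (famIso_fam e' g i).trans ?_
    simp_rw [he']
  let L : ℤ := ∏ j, (N j : ℤ)
  let c : ι → ℤ := fun i => a i * ∏ j ∈ Finset.univ.erase i, (N j : ℤ)
  have hL : L ≠ 0 := Finset.prod_ne_zero_iff.mpr fun j _ => by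
    have := hN j
    omega
  have hc : ∀ i, c i * (N i : ℤ) = a i * L := by
    intro i
    rw [mul_assoc, Finset.prod_erase_mul _ _ (Finset.mem_univ i)]
  have hwh : IsWeightedHomogeneous (fun t : Σ i, σ i => c t.1 * w t.1 t.2) (aeval (fam g) Q)
      (e * L) := by
    refine wh_comp (fun i => ?_) hQ
    apply wh_rename
    have h := wh_scale (c i) (hg i)
    rw [hc i] at h
    exact h
  have hP1 : P (aff k (Fib (one (aeval (fam g) Q)) k (fun _ => (1 : k)))) := by
    rw [fib_level hP, C_1]
    have hg' : ∀ i, Gd P (g i) := fun i =>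
      ⟨hσ i, σ i, hσ i, AlgEquiv.refl, w i, N i, g i, hN i, hg i, rfl, h1 i⟩
    have h := preimageD hP hd hg' (Ideal.span {Q - 1}) hdim
    rw [pre_span, map_sub, map_one] at h
    exact h
  rcases lt_or_gt_of_ne (mul_ne_zero he hL) with h | h
  · refine ⟨inferInstance, _, inferInstance, famIso e', fun t => - (c t.1 * w t.1 t.2),
      (-(e * L)).toNat, aeval (fam g) Q, by omega, ?_, hcomp, hP1⟩
    have h2 : (((-(e * L)).toNat : ℕ) : ℤ) = -(e * L) := by omega
    rw [h2]
    exact wh_neg hwh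
  · refine ⟨inferInstance, _, inferInstance, famIso e', fun t => c t.1 * w t.1 t.2,
      (e * L).toNat, aeval (fam g) Q, by omega, ?_, hcomp, hP1⟩
    have h2 : (((e * L).toNat : ℕ) : ℤ) = e * L := by omega
    rw [h2]
    exact hwh

/-- compositions with a polynomial in at most `d + 1` variables -/
theorem gd_comp_le {m : ℕ} (hm : m ≤ d + 1) {τ : Fin m → Type} {f : ∀ i, MvPolynomial (τ i) k}
    (hf : ∀ i, Gd P (f i)) (Q : MvPolynomial (Fin m) k) (a : Fin m → ℤ) (e : ℤ) (he : e ≠ 0)
    (hQ : IsWeightedHomogeneous a Q e) : Gd P (aeval (fam f) Q) := by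
  refine gd_compD hP hd hf Q a e he hQ ?_
  rcases Nat.lt_or_eq_of_le hm with hm | rfl
  · refine (ringKrullDim_quotient_le _).trans ((dim_space m).trans ?_)
    have h : m ≤ d := by omega
    exact_mod_cast h
  refine dim_quot (N := d) _ fun h => ?_
  rw [Ideal.span_singleton_eq_bot, sub_eq_zero] at h
  rw [h] at hQ
  have h1 := hQ (d := 0) (by rw [coeff_zero_one]; exact one_ne_zero)
  rw [map_zero] at h1
  exact he h1.symm

/-- trilinear forms with a block of at most `d + 2` variables -/
theorem gd_tri_le {a b c : ℕ} (T : Fin a → Fin b → Fin c → k)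
    (h : a ≤ d + 2 ∨ b ≤ d + 2 ∨ c ≤ d + 2) : Gd P (tri T) := by
  refine ⟨inferInstance, _, inferInstance, AlgEquiv.refl, fun _ => 1, 3, tri T, by omega, ?_, rfl,
    ?_⟩
  · rw [tri]
    refine IsWeightedHomogeneous.sum _ _ _ fun i _ => IsWeightedHomogeneous.sum _ _ _ fun j _ =>
      IsWeightedHomogeneous.sum _ _ _ fun l _ => ?_
    have h1 := (((isWeightedHomogeneous_C (fun _ => (1 : ℤ)) (T i j l)).mul
      (isWeightedHomogeneous_X k (fun _ => (1 : ℤ)) (Sum.inl i))).mul
      (isWeightedHomogeneous_X k (fun _ => (1 : ℤ)) (Sum.inr (Sum.inl j)))).mul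
      (isWeightedHomogeneous_X k (fun _ => (1 : ℤ)) (Sum.inr (Sum.inr l) :
        Fin a ⊕ (Fin b ⊕ Fin c)))
    exact h1
  · rw [fib_level hP, C_1]
    have hB := hP.toBnd
    have h2 : ∀ I : Ideal (MvPolynomial (Fin (d + 1)) k),
        P (aff k (MvPolynomial (Fin (d + 1)) k ⧸ I)) :=
      dim_to_closed hB fun A _ _ _ hA => hd A hA
    exact of_block hB (fun a b c' hc' T => to_tri hB h2 a b c' hc' T) T h

end Pool.Agent.V5helper94.SV
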