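import Pool.Agent.V5helper94.SV.Comp

/-!
# Polynomials which are linear in some of the variables
-/

set_option autoImplicit false

open CategoryTheory AlgebraicGeometry MvPolynomial Pool.Agent.Y116.UV Pool.Agent.Z125.UN
  Pool.Agent.V5helper52.SF TensorProduct

namespace Pool.Agent.V5helper94.SV

variable {k : Type} [Field k]

/-- The polynomial `∑ x_j g_j(y)`. -/
noncomputable def lin {N : ℕ} {σ : Type} (g : Fin N → MvPolynomial σ k) :
    MvPolynomial (Fin N ⊕ σ) k := ∑ j, X (Sum.inl j) * rename Sum.inr (g j)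

lemma lin_wh {N : ℕ} {σ : Type} (g : Fin N → MvPolynomial σ k) :
    IsWeightedHomogeneous (Sum.elim (fun _ => 1) (fun _ => 0) : Fin N ⊕ σ → ℤ) (lin g) 1 := by
  rw [lin]
  refine IsWeightedHomogeneous.sum _ _ _ fun j _ => ?_
  have h1 := isWeightedHomogeneous_X k (Sum.elim (fun _ => 1) (fun _ => 0) : Fin N ⊕ σ → ℤ)
    (Sum.inl j)
  have h2 : IsWeightedHomogeneous (Sum.elim (fun _ => 1) (fun _ => 0) : Fin N ⊕ σ → ℤ)
      (rename Sum.inr (g j) : MvPolynomial (Fin N ⊕ σ) k) 0 := by
    apply wh_rename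
    intro c _
    rw [Finsupp.weight_apply, Finsupp.sum]
    exact Finset.sum_eq_zero fun i _ => by simp
  have h3 := h1.mul h2
  rwa [Sum.elim_inl, add_zero] at h3

/-- `∑ x_j g_j(y) = 1` is the affine bundle of Jouanolou -/
theorem linJou {N : ℕ} {σ : Type} (g : Fin N → MvPolynomial σ k) :
    Nonempty ((MvPolynomial (Fin N ⊕ σ) k ⧸ Ideal.span {lin g - 1}) ≃ₐ[k] Jou g) := by
  let f := sumAlgEquiv k (Fin N) σ
  have h0 : f (lin g - 1) = ∑ l, C (g l) * X l - 1 := by
    rw [map_sub, map_one, lin, map_sum]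
    congr 1
    apply Finset.sum_congr rfl
    intro j _
    rw [map_mul, mul_comm]
    congr 1
    · have h := DFunLike.congr_fun (sumAlgEquiv_comp_rename_inr k (Fin N) σ) (g j)
      exact h
    · exact sumAlgEquiv_X_inl k (Fin N) σ j
  refine ⟨Ideal.quotientEquivAlg (Ideal.span {lin g - 1}) (Ideal.span {∑ l, C (g l) * X l - 1}) f ?_⟩
  rw [Ideal.map_span, Set.image_singleton]
  congr 1
  exact congrArg _ h0.symm

section

variable {sep : Prop} {P : Sch k → Prop} (hP : Cls sep P)

include hP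

/-- from `f = 0` to Jouanolou's bundle over the complement -/
lemma to_jou {A : Type} [CommRing A] [Algebra k A] [Algebra.FiniteType k A]
    {m : ℕ} (f : Fin m → A) (hA : P (aff k A)) (hf : P (aff k (A ⧸ Ideal.span (Set.range f)))) :
    P (aff k (Jou f)) := by
  refine hP.bundle A m f (opn (aff k A) (neOpen k f)) (opnMap (aff k A) (neOpen k f))
    inferInstance (range_opnMap _ _) ?_
  refine hP.opened _ (opnMap (aff k A) (neOpen k f)) (ft_aff sep)
    (triple_ideal (Ideal.span (Set.range f)) _ _ inferInstance ?_) hf hA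
  rw [range_opnMap]
  ext x
  change (∃ l, f l ∉ x.asIdeal) ↔ ∃ g ∈ Ideal.span (Set.range f), g ∉ x.asIdeal
  constructor
  · rintro ⟨l, hl⟩
    exact ⟨f l, Ideal.subset_span ⟨l, rfl⟩, hl⟩
  · rintro ⟨g, hg, hgx⟩
    by_contra hcon
    push Not at hcon
    refine hgx ((Ideal.span_le.mpr ?_ : Ideal.span (Set.range f) ≤ x.asIdeal) hg)
    rintro _ ⟨l, rfl⟩
    exact hcon l

/-- linear polynomials in some of the variables -/
theorem gd_lin {N : ℕ} {σ : Type} [Finite σ] (g : Fin N → MvPolynomial σ k)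
    (h : P (aff k (MvPolynomial σ k ⧸ Ideal.span (Set.range g)))) : Gd P (lin g) := by
  refine ⟨inferInstance, _, inferInstance, AlgEquiv.refl, _, 1, lin g, one_pos, lin_wh g, rfl, ?_⟩
  have := Fintype.ofFinite σ
  have h4 : P (aff k (MvPolynomial σ k)) :=
    p_poly hP.toBnd σ
      (iso_alg hP.toUni (MvPolynomial.isEmptyAlgEquiv k (Fin 0)) (hP.space 0))
  rw [fib_level hP, C_1]
  exact iso_symm hP (linJou g) (to_jou hP g h4 h)

/-- homogeneous polynomials -/
theorem gd_good {τ : Type} [Finite τ] (f : MvPolynomial τ k) (w : τ → ℤ) (e : ℤ) (he : e ≠ 0)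
    (hf : IsWeightedHomogeneous w f e)
    (h : P (aff k (MvPolynomial τ k ⧸ Ideal.span {f - 1}))) : Gd P f := by
  have h1 : P (aff k (Fib (one f) k (fun _ => (1 : k)))) := by
    rw [fib_level hP, C_1]
    exact h
  rcases lt_or_gt_of_ne he with h0 | h0
  · refine ⟨inferInstance, _, inferInstance, AlgEquiv.refl, fun t => - w t, (-e).toNat, f,
      by omega, ?_, rfl, h1⟩
    have h2 : (((-e).toNat : ℕ) : ℤ) = -e := by omega
    rw [h2]
    exact wh_neg hf
  · refine ⟨inferInstance, _, inferInstance, AlgEquiv.refl, w, e.toNat, f, by omega, ?_, rfl, h1⟩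
    have h2 : ((e.toNat : ℕ) : ℤ) = e := by omega
    rw [h2]
    exact hf

end

end Pool.Agent.V5helper94.SV
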