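import Pool.Agent.V5helper94.SV.Chow

/-!
# Chow motives which come from dimension at most `d`
-/

set_option autoImplicit false

open CategoryTheory CategoryTheory.Limits AlgebraicGeometry Pool.Agent.Y116.UV
  Pool.Agent.V5helper77.GW Pool.Agent.V5helper48.WC

namespace Pool.Agent.V5helper94.SV

variable {k : Type} [Field k]

/-- The Chow motives which come from dimension at most `d`: the smallest class of motives which contains
the unit motive and the motives `h X` of the smooth proper schemes `X` over `k` of dimension at most
`d`, and which is closed under direct summands, direct sums, tensor products, and Tate twists. For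
`d = 1` these are motives of abelian type. -/
inductive LowChow (T : ChowData k) (D : TensorData T) (d : ℕ) : T.C → Prop
  | point : LowChow T D d (T.h (aff k k))
  | variety {X : Sch k} (hX : IsSmProper X) (hd : topologicalKrullDim X.left ≤ d) :
      LowChow T D d (T.h X)
  | zero {M : T.C} (h : IsZero M) : LowChow T D d M
  | retract {M N : T.C} (i : M ⟶ N) (r : N ⟶ M) (h : i ≫ r = 𝟙 M) (hN : LowChow T D d N) :
      LowChow T D d M
  | sum {M N : T.C} (hM : LowChow T D d M) (hN : LowChow T D d N) : LowChow T D d (M ⊞ N)
  | twist {M : T.C} (r : ℤ) (hM : LowChow T D d M) : LowChow T D d ((T.tw r).obj M)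
  | untwist {M : T.C} (r : ℤ) (hM : LowChow T D d ((T.tw r).obj M)) : LowChow T D d M
  | tensor {M N : T.C} (hM : LowChow T D d M) (hN : LowChow T D d N) :
      LowChow T D d (D.ten M N)

variable {T : ChowData k} {D : TensorData T} {d : ℕ}

lemma lowChow_stable : IsTwistStable T (LowChow T D d) where
  zero _ h := .zero h
  retract i r h hN := .retract i r h hN
  sum hM hN := .sum hM hN
  twist r _ := ⟨.untwist r, .twist r⟩
  unit := .point

/-- Induction over the Chow motives which come from dimension at most `d`. -/
lemma lowChow_le {S : T.C → Prop} (hS : IsTwistStable T S)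
    (hten : ∀ M N, S M → S N → S (D.ten M N))
    (h : ∀ X : Sch k, IsSmProper X → topologicalKrullDim X.left ≤ d → S (T.h X)) {M : T.C}
    (hM : LowChow T D d M) : S M := by
  induction hM with
  | point => exact hS.unit
  | variety hX hd => exact h _ hX hd
  | zero h => exact hS.zero _ h
  | retract i r h _ ih => exact hS.retract i r h ih
  | sum _ _ ih ih' => exact hS.sum ih ih'
  | twist r _ ih => exact (hS.twist r _).mpr ih
  | untwist r _ ih => exact (hS.twist r _).mp ih
  | tensor _ _ ih ih' => exact hten _ _ ih ih'

/-- The motives of the smooth proper schemes which are built from schemes of dimension at most `d` come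
from dimension at most `d`. -/
theorem lowChow_built [PerfectField k] (hA : DeJong k) (hT : IsChowTheory IsSmProper T)
    (ht : HasTransfer T) (hD : IsTensorChow D) (hd : 1 ≤ d) :
    (∀ X : Sch k, Built k d X → T.Built (LowChow T D d) X) ∧
      ∀ X : Sch k, IsSmProper X → Built k d X → LowChow T D d (T.h X) :=
  chow_built hA hT ht hD lowChow_stable (fun _ _ hM hN => .tensor hM hN) hd
    fun _ hX hd1 => .variety hX hd1

end Pool.Agent.V5helper94.SV
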