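import Pool.Agent.V5helper94.SV.Dim

/-!
# Separated variables over families of quadrics
-/

set_option autoImplicit false

open CategoryTheory AlgebraicGeometry MvPolynomial Pool.Agent.Y116.UV Pool.Agent.Z125.UN
  Pool.Agent.V5helper52.SF TensorProduct

namespace Pool.Agent.V5helper94.SV

variable {k : Type} [Field k]

/-- isomorphic bases -/
theorem fibCongr {τ κ : Type} (F : κ → MvPolynomial τ k) {D D' : Type} [CommRing D] [Algebra k D]
    [CommRing D'] [Algebra k D'] (e : D ≃ₐ[k] D') (b : κ → D) :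
    Nonempty (Fib F D b ≃ₐ[k] Fib F D' (fun i => e (b i))) := by
  let b' : κ → D' := fun i => e (b i)
  let f : Fib F D b →ₐ[k] Fib F D' b' := fibLift ((fc F b').comp e.toAlgHom) (fv F b') (fun i => by
    rw [fib_rel]
    rfl)
  have hfc : ∀ x, f (fc F b x) = fc F b' (e x) := fun x => fibLift_fc _ _ _ x
  have hfv : ∀ t, f (fv F b t) = fv F b' t := fun t => fibLift_fv _ _ _ t
  let g : Fib F D' b' →ₐ[k] Fib F D b := fibLift ((fc F b).comp e.symm.toAlgHom) (fv F b)
    (fun i => by
      rw [fib_rel]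
      change fc F b (b i) = fc F b (e.symm (e (b i)))
      rw [AlgEquiv.symm_apply_apply])
  have hgc : ∀ x, g (fc F b' x) = fc F b (e.symm x) := fun x => fibLift_fc _ _ _ x
  have hgv : ∀ t, g (fv F b' t) = fv F b t := fun t => fibLift_fv _ _ _ t
  refine ⟨mkIso f g ?_ ?_⟩
  · apply fib_ext
    · intro x
      rw [AlgHom.comp_apply, hfc, hgc, AlgEquiv.symm_apply_apply]
      rfl
    · intro t
      rw [AlgHom.comp_apply, hfv, hgv]
      rfl
  · apply fib_ext
    · intro x
      rw [AlgHom.comp_apply, hgc, hfc, AlgEquiv.apply_symm_apply]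
      rfl
    · intro t
      rw [AlgHom.comp_apply, hgv, hfv]
      rfl

section base

variable {τ : Type} {E : Type} [CommRing E] [Algebra k E] (J : Ideal (MvPolynomial τ E))

/-- base change to the quotient by one element -/
theorem tQuotOne (c : E) : ∃ e : (Tq J ⧸ Ideal.span {tc k J c}) ≃ₐ[k] Tq (bc (qm k c) J),
    ∀ x, e (qm k _ (tc k J x)) = tc k _ (qm k c x) := by
  obtain ⟨e, he⟩ := tQuot (k := k) (J := J) (Ideal.span {c})
  have h1 : Ideal.span {tc k J c} = (Ideal.span {c}).map (tc k J) := by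
    rw [Ideal.map_span, Set.image_singleton]
  exact ⟨(Ideal.quotientEquivAlgOfEq k h1).trans e, fun x => he x⟩

/-- base change to a Kummer algebra -/
theorem tKum (N : ℕ) (c : E) : ∃ e : Kum N (tc k J c) ≃ₐ[k] Tq (bc (kc k N c) J),
    ∀ x, e (kc k N _ (tc k J x)) = tc k _ (kc k N c x) := by
  let m := kc k N c
  let m' := kc k N (tc k J c)
  let f : Kum N (tc k J c) →ₐ[k] Tq (bc m J) :=
    kLift (tMap m J) (tc k _ (kr N c)) (by rw [tMap_tc, ← map_pow, kr_pow (k := k)])
      (by rw [tMap_tc]; exact kc_unit.map _)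
  have hf : ∀ x, f (m' x) = tMap m J x := fun x => kLift_kc _ _ _ _ x
  have hfr : f (kr N (tc k J c)) = tc k _ (kr N c) := kLift_kr _ _ _ _
  let g1 : Kum N c →ₐ[k] Kum N (tc k J c) :=
    kLift (m'.comp (tc k J)) (kr N _) (by rw [kr_pow (k := k), AlgHom.comp_apply])
      (by rw [AlgHom.comp_apply]; exact kc_unit)
  have hg1 : ∀ x, g1 (m x) = m' (tc k J x) := fun x => kLift_kc _ _ _ _ x
  have hg1r : g1 (kr N c) = kr N _ := kLift_kr _ _ _ _
  have hg1' : g1.comp m = m'.comp (tc k J) := AlgHom.ext hg1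
  let g : Tq (bc m J) →ₐ[k] Kum N (tc k J c) :=
    tLift _ g1 (fun t => m' (tv J t)) (bc_zero _ _ _ (fun q hq => by
      rw [hg1']
      exact t_zero m' q hq))
  have hgc : ∀ x, g (tc k _ x) = g1 x := fun x => tLift_tc _ _ _ x
  have hgv : ∀ t, g (tv _ t) = m' (tv J t) := fun t => tLift_tv _ _ _ t
  refine ⟨mkIso f g ?_ ?_, fun x => ?_⟩
  · apply kum_ext
    · intro x
      rw [AlgHom.comp_apply, hf]
      have h : g.comp (tMap m J) = m' := by
        apply t_ext
        · intro c'
          rw [AlgHom.comp_apply, tMap_tc, hgc, hg1]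
        · intro t
          rw [AlgHom.comp_apply, tMap_tv, hgv]
      exact DFunLike.congr_fun h x
    · rw [AlgHom.comp_apply, hfr, hgc, hg1r]
      rfl
  · apply t_ext
    · intro x
      rw [AlgHom.comp_apply, hgc]
      have h : f.comp g1 = tc k (bc m J) := by
        apply kum_ext
        · intro y
          rw [AlgHom.comp_apply, hg1, hf, tMap_tc]
        · rw [AlgHom.comp_apply, hg1r, hfr]
      exact DFunLike.congr_fun h x
    · intro t
      rw [AlgHom.comp_apply, hgv, hf, tMap_tv]
      rfl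
  · change f (m' (tc k J x)) = _
    rw [hf, tMap_tc]

/-- the ideal generated by polynomials after a base change -/
lemma bc_range {E' : Type} [CommRing E'] [Algebra k E'] {r : ℕ} (f : E →ₐ[k] E')
    (q : Fin r → MvPolynomial τ E) : bc f (Ideal.span (Set.range q)) =
    Ideal.span (Set.range fun j => MvPolynomial.map (f : E →+* E') (q j)) := by
  rw [bc_span]
  congr 1
  ext p
  constructor
  · rintro ⟨_, ⟨j, rfl⟩, rfl⟩
    exact ⟨j, rfl⟩
  · rintro ⟨j, rfl⟩
    exact ⟨q j, ⟨j, rfl⟩, rfl⟩

end base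

/-- The property of the fibre product of the scheme with the ring of functions `B[x] / J` and the affine
spaces with the maps `f_i`, over affine lines. -/
def FibJ (P : Sch k → Prop) {N : ℕ} {ι : Type} {τ : ι → Type} (f : ∀ i, MvPolynomial (τ i) k)
    {B : Type} [CommRing B] [Algebra k B] (J : Ideal (MvPolynomial (Fin N) B)) (b : ι → B) : Prop :=
  P (aff k (Fib (fam f) (Tq J) (fun i => tc k J (b i))))

section

variable {sep : Prop} {P : Sch k → Prop} (hP : Cls sep P)

include hP

lemma fibJ_empty {N : ℕ} {ι : Type} [IsEmpty ι] {τ : ι → Type} (f : ∀ i, MvPolynomial (τ i) k)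
    {B : Type} [CommRing B] [Algebra k B] [Algebra.FiniteType k B]
    (J : Ideal (MvPolynomial (Fin N) B)) (b : ι → B) (h : P (aff k (Tq J))) : FibJ P f J b := by
  refine iso' hP ⟨mkIso (fc _ _)
    (fibLift (AlgHom.id k _) (fun t => isEmptyElim t.1) (fun i => isEmptyElim i)) ?_ ?_⟩ h
  · refine AlgHom.ext fun x => ?_
    rw [AlgHom.comp_apply, fibLift_fc]
  · apply fib_ext
    · intro x
      rw [AlgHom.comp_apply, fibLift_fc]
      rfl
    · intro t
      exact (IsEmpty.false t.1).elim

lemma fibJ_step {N : ℕ} {α : Type} [Finite α] {τ : Option α → Type}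
    (f : ∀ i, MvPolynomial (τ i) k) (hf : ∀ i, Gd P (f i)) :
    ∃ M : ℕ, 0 < M ∧ ∀ (B : Type) [CommRing B] [Algebra k B] [Algebra.FiniteType k B]
    (J : Ideal (MvPolynomial (Fin N) B)) (b : Option α → B),
    FibJ P (fun a => f (some a)) (bc (qm k (b none)) J) (fun a => qm k (b none) (b (some a))) →
    FibJ P (fun a => f (some a)) (bc (kc k M (b none)) J) (fun a => kc k M (b none) (b (some a))) →
    FibJ P f J b := by
  have hfin := fun i => (hf i).1
  obtain ⟨M, hM, hst⟩ := gd_step hP (hf none)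
  refine ⟨M, hM, fun B _ _ _ J b h1 h2 => ?_⟩
  let b' : α → Tq J := fun a => tc k J (b (some a))
  let E := Fib (fam fun a => f (some a)) (Tq J) b'
  refine iso_symm hP (fibOpt f fun i => tc k J (b i)) ?_
  apply hst
  · refine iso_symm hP (fibQuot (fam fun a => f (some a)) b' (tc k J (b none))) ?_
    obtain ⟨e, he⟩ := tQuotOne (k := k) J (b none)
    refine iso_symm hP (fibCongr _ e _) ?_
    have h3 : (fun i => e (qm k (tc k J (b none)) (b' i))) =
        fun i => tc k _ (qm k (b none) (b (some i))) := funext fun i => he _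
    rw [h3]
    exact h1
  · have := kum_ft (k := k) hM (tc k J (b none))
    have := kum_ft (k := k) hM (b none)
    refine iso_symm hP (fibKum (fam fun a => f (some a)) b' M (tc k J (b none))) ?_
    obtain ⟨e, he⟩ := tKum (k := k) J M (b none)
    refine iso_symm hP (fibCongr _ e _) ?_
    have h3 : (fun i => e (kc k M (tc k J (b none)) (b' i))) =
        fun i => tc k _ (kc k M (b none) (b (some i))) := funext fun i => he _
    rw [h3]
    exact h2

variable {d : ℕ}
  (hd : ∀ (A : Type) [CommRing A] [Algebra k A] [Algebra.FiniteType k A], ringKrullDim A ≤ d →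
    P (aff k A))

include hd

/-- **Blocks of variables over a family of intersections of quadrics.** -/
theorem blocksQ {N r s : ℕ} (hs : s ≤ d) (hr : s + r ≤ d + 1) (ι : Type) [Finite ι] :
    ∀ (τ : ι → Type) (f : ∀ i, MvPolynomial (τ i) k),
    (∀ i, Gd P (f i)) → ∀ (B : Type) [CommRing B] [Algebra k B] [Algebra.FiniteType k B],
    ringKrullDim B ≤ s → ∀ q : Fin r → MvPolynomial (Fin N) B, (∀ j, (q j).totalDegree ≤ 2) →
    ∀ b : ι → B, FibJ P f (Ideal.span (Set.range q)) b := by
  refine (Finite.induction_empty_option (P := fun ι : Type => Finite ι ∧ ∀ (τ : ι → Type)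
    (f : ∀ i, MvPolynomial (τ i) k), (∀ i, Gd P (f i)) → ∀ (B : Type) [CommRing B] [Algebra k B]
    [Algebra.FiniteType k B], ringKrullDim B ≤ s → ∀ q : Fin r → MvPolynomial (Fin N) B,
    (∀ j, (q j).totalDegree ≤ 2) → ∀ b : ι → B, FibJ P f (Ideal.span (Set.range q)) b)
    ?_ ⟨inferInstance, ?_⟩ ?_ ι).2
  · rintro α β v ⟨hα, h⟩
    refine ⟨Finite.of_equiv α v, fun τ f hf B _ _ _ hB q hq b => ?_⟩
    have := fun i => (hf i).1
    exact iso' hP (fibEq v f fun i => tc k _ (b i))
      (h _ (fun a => f (v a)) (fun a => hf (v a)) B hB q hq _)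
  · intro τ f hf B _ _ _ hB q hq b
    exact fibJ_empty hP f _ b (p_quadrics hP hd hB hs hr q hq).1
  · rintro α _ ⟨_, ih⟩
    refine ⟨inferInstance, fun τ f hf B _ _ _ hB q hq b => ?_⟩
    obtain ⟨M, hM, hst⟩ := fibJ_step (N := N) hP f hf
    apply hst
    · rw [bc_range]
      exact ih _ _ (fun a => hf (some a)) (B ⧸ Ideal.span {b none})
          ((ringKrullDim_quotient_le _).trans hB) _ (fun j => d_map _ _ (hq j)) _
    · rw [bc_range]
      have := kum_ft (k := k) hM (b none)
      exact ih _ _ (fun a => hf (some a)) (Kum M (b none))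
          ((kum_dim hM (b none)).trans hB) _ (fun j => d_map _ _ (hq j)) _

end

end Pool.Agent.V5helper94.SV
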